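import Pool.Agent.Helper86.UQ.St5

/-!
# Project UQ, module RKD: the rank condition
-/

set_option autoImplicit false

open Finset

namespace Pool.Agent.Helper99.UQ

open Classical Pool.Agent.Helper30.RCU Pool.Agent.Helper1.UQ Pool.Agent.Helper86.UQ

universe u

theorem hRKD (hCOL : StCOL.{u}) (hMTE : StMTE.{u}) : StRKD.{u} := by
  intro V G hlf I ω hω
  set W : Finset V := (te G I).biUnion fun e => (e : Sym2 V).toFinset with hW
  have memW : ∀ v, v ∈ W ↔ ∃ e ∈ te G I, v ∈ (e : Sym2 V) := by
    intro v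
    rw [hW, Finset.mem_biUnion]
    simp only [Sym2.mem_toFinset]
  have hends : ends (ph G) ω ⊆ W.image some := by
    intro x hx
    obtain ⟨e, he, hxe⟩ := mem_ends.mp hx
    have he' := hω he
    rw [Finset.mem_map] at he'
    obtain ⟨e', he', rfl⟩ := he'
    change x ∈ (e' : Sym2 V).map some at hxe
    rw [Sym2.mem_map] at hxe
    obtain ⟨v, hv, rfl⟩ := hxe
    exact Finset.mem_image_of_mem _ ((memW v).mpr ⟨e', he', hv⟩)
  have h1 := hCOL (Option V) (Option V) (GE G) (ph G) (sg I) ω (W.image some) hends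
  have h2 : ∀ d1 : DecidableEq (Option V), (@Finset.image _ _ d1 some W).card = W.card :=
    fun d1 => Finset.card_image_of_injective _ (Option.some_injective V)
  have h3 : ∀ d1 d2 : DecidableEq (Option V),
      (W ∩ I).card ≤ (@Finset.image _ _ d2 (sg I) (@Finset.image _ _ d1 some W)).card := by
    intro d1 d2
    obtain rfl : d1 = d2 := Subsingleton.elim _ _
    rw [← @Finset.card_image_of_injective _ _ some d1 (W ∩ I) (Option.some_injective V)]
    refine Finset.card_le_card fun x hx => ?_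
    rw [Finset.mem_image] at hx
    obtain ⟨v, hv, rfl⟩ := hx
    rw [Finset.mem_inter] at hv
    rw [Finset.mem_image]
    refine ⟨some v, Finset.mem_image_of_mem _ hv.1, ?_⟩
    simp [sg, hv.2]
  have h4 : (W ∩ I).card + (W \ I).card = W.card := Finset.card_inter_add_card_sdiff W I
  have h5 : (W \ I).card ≤ (bd G I).card := by
    have hch : ∀ v ∈ W \ I, ∃ e, e ∈ te G I ∧ v ∈ (e : Sym2 V) := fun v hv => by
      obtain ⟨e, he, hve⟩ := (memW v).mp (Finset.mem_sdiff.mp hv).1
      exact ⟨e, he, hve⟩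
    choose f hf1 hf2 using hch
    rw [← Finset.card_attach (s := W \ I)]
    refine Finset.card_le_card_of_injOn (fun v => f v.1 v.2) ?_ ?_
    · intro v _
      have hv := (Finset.mem_sdiff.mp v.2).2
      exact Finset.mem_coe.mpr ((hMTE V G hlf I _).2.mpr
        ⟨(hMTE V G hlf I _).1.mp (hf1 v.1 v.2), v.1, hf2 v.1 v.2, hv⟩)
    · intro v _ v' _ hvv
      have hv := (Finset.mem_sdiff.mp v.2).2
      have hv' := (Finset.mem_sdiff.mp v'.2).2
      have e1 := hf2 v.1 v.2
      have e2 := hf2 v'.1 v'.2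
      have hvv' : f v.1 v.2 = f v'.1 v'.2 := hvv
      rw [← hvv'] at e2
      obtain ⟨w, hw, hwI⟩ := (hMTE V G hlf I _).1.mp (hf1 v.1 v.2)
      have hne : v.1 ≠ w := fun h => hv (h ▸ hwI)
      have hs := (Sym2.mem_and_mem_iff hne).mp ⟨e1, hw⟩
      rw [hs, Sym2.mem_iff] at e2
      rcases e2 with h | h
      · exact Subtype.ext h.symm
      · exact absurd (h ▸ hwI) hv'
  have h6 := (Nat.add_le_add_left (h3 _ _) (rk (ph G) ω)).trans h1
  rw [h2] at h6
  have e : pI G I = cm (ph G) (sg I) := rfl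
  rw [e]
  omega

end Pool.Agent.Helper99.UQ
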